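import Mathlib
import Pool.Agent.Work.MP_7994d1_al.Defs
import Pool.Agent.Work.MP_7994d1_al.PGL
import Pool.Agent.Work.MP_7994d1_al.SLFinal

/-!
The Jordan decomposition of Brauer characters fails for `G = PGL₂(q)` and `ℓ = 2`.
-/

namespace Pool.Agent.Results.MP_7994d1_al.PGLTwo

open MP7994d1
open scoped MonoidAlgebra MatrixGroups LinearAlgebra.Projectivization

theorem mem_cent_one {F : Type} [Field F] (g : SL(2, F)) : g ∈ Cent (1 : SL(2, F)) := by
  rw [Cent, Subgroup.mem_centralizer_iff]
  rintro h rfl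
  simp

theorem cent_one {F : Type} [Field F] : Cent (1 : SL(2, F)) = ⊤ := by
  rw [eq_top_iff]
  intro g _
  exact mem_cent_one g

/-- Let `F` be a finite field of odd order `q > 3` and let `k` be an algebraically closed field
of characteristic `2`. The degree of every irreducible `2`-modular Brauer character of `PGL₂(F)`
is `1` or at least `q - 1`, but the group `C(1) = SL₂(F)` has a unipotent irreducible
`2`-modular Brauer character `μ` with `1 < μ(1) < q - 1`. Hence, for every system `R` of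
representatives of the classes of semisimple elements of odd order of `SL₂(F)`, there is no
bijection `Φ` from the pairs `(s, μ)`, where `s ∈ R` and `μ` is a unipotent irreducible
`2`-modular Brauer character of `C(s)`, to the irreducible `2`-modular Brauer characters of
`PGL₂(F)` with `Φ(s, μ)(1) = |SL₂(F) : C(s)|_{p'} μ(1)` for all `(s, μ)`. -/
theorem result (F : Type) [Field F] [Fintype F] (hodd : Odd (Fintype.card F))
    (h3 : 3 < Fintype.card F) (k : Type) [Field k] [IsAlgClosed k] [CharP k 2] :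
    (∀ n, IsDegree k PGL(2, F) n → n = 1 ∨ Fintype.card F - 1 ≤ n) ∧
    (∃ n, IsUnipotentDegree k (Cent (1 : SL(2, F))) n ∧ 1 < n ∧ n < Fintype.card F - 1) ∧
    ∀ R : Set SL(2, F), IsTransversal 2 R → ¬ HasJordanBijection k R := by
  classical
  have hFk : (Fintype.card F : k) ≠ 0 := by
    intro h
    rw [CharP.cast_eq_zero_iff k 2] at h
    obtain ⟨r, hr⟩ := hodd
    omega
  have hA : ∀ n, IsDegree k PGL(2, F) n → n = 1 ∨ Fintype.card F - 1 ≤ n := by
    rintro _ ⟨φ, rfl⟩
    induction φ using Quot.ind with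
    | _ α =>
      have hirr : Representation.IsIrreducible α.ρ := α.irr
      have hM := finrank_PGL hFk (Representation.asModule α.ρ)
      exact hM
  have hB : ∃ n, IsUnipotentDegree k (Cent (1 : SL(2, F))) n ∧ 1 < n ∧
      n < Fintype.card F - 1 := by
    obtain ⟨μ, h1, h2, h4⟩ := exists_unipotent_factor (k := k) hodd h3
      (Cent (1 : SL(2, F))) mem_cent_one
    refine ⟨μ.degree, ⟨μ, ?_, rfl⟩, h2, h4⟩
    rw [IsUnipotent, unipotentRep, if_pos cent_one]
    exact h1
  refine ⟨hA, hB, ?_⟩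
  rintro R hR ⟨Φ, hΦ⟩
  obtain ⟨s, ⟨hs, hs1⟩, -⟩ := hR.2 1 (by simp)
  have hs1' : s = 1 := by simpa using hs1
  subst hs1'
  obtain ⟨n, ⟨μ, h1, h8⟩, h2, h4⟩ := hB
  have h5 := hΦ ⟨1, hs, μ, h1⟩
  have h6 : (Cent (1 : SL(2, F))).index = 1 := by rw [cent_one, Subgroup.index_top]
  have h7 : (Φ ⟨1, hs, μ, h1⟩).degree = μ.degree := by
    rw [h5]
    show ordCompl[ringChar F] (Cent (1 : SL(2, F))).index * μ.degree = μ.degree
    rw [h6]
    simp
  rcases hA _ ⟨Φ ⟨1, hs, μ, h1⟩, rfl⟩ with h9 | h9
  · omega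
  · omega

end Pool.Agent.Results.MP_7994d1_al.PGLTwo
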